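import Pool.Agent.XDE.Test

/-!
# Permutations of the variables and changes of signs
-/

set_option autoImplicit false

namespace Pool.XDT

open Finset Pool.SatDet Pool.XDS

section act

variable {n k : ℕ}

/-- the action on literals -/
def actL (π : Equiv.Perm (Fin n)) (τ : Fin n → Bool) : (Fin n × Bool) ≃ (Fin n × Bool) where
  toFun p := (π p.1, xor p.2 (τ (π p.1)))
  invFun p := (π.symm p.1, xor p.2 (τ p.1))
  left_inv := by
    rintro ⟨i, s⟩
    simp
  right_inv := by
    rintro ⟨i, s⟩
    simp

/-- the action on assignments -/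
def actA (π : Equiv.Perm (Fin n)) (τ : Fin n → Bool) : (Fin n → Bool) ≃ (Fin n → Bool) where
  toFun a := fun i => xor (a (π.symm i)) (τ i)
  invFun a := fun i => xor (a (π i)) (τ (π i))
  left_inv := by
    intro a
    funext i
    simp
  right_inv := by
    intro a
    funext i
    simp

theorem isClause_map (e : (Fin n × Bool) ≃ (Fin n × Bool))
    (h : ∀ i, ∃ j t, e.symm (i, true) = (j, !t) ∧ e.symm (i, false) = (j, t))
    {C : Finset (Fin n × Bool)} (hC : IsClause n k C) : IsClause n k (C.map e.toEmbedding) := by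
  refine ⟨by rw [card_map]; exact hC.1, ?_⟩
  rintro i ⟨h1, h2⟩
  rw [mem_map_equiv] at h1 h2
  obtain ⟨j, t, h3, h4⟩ := h i
  rw [h3] at h1
  rw [h4] at h2
  apply hC.2 j
  cases t
  · exact ⟨h1, h2⟩
  · exact ⟨h2, h1⟩

theorem actL_1 (π : Equiv.Perm (Fin n)) (τ : Fin n → Bool) (i : Fin n) :
    ∃ j t, (actL π τ).symm (i, true) = (j, !t) ∧ (actL π τ).symm (i, false) = (j, t) :=
  ⟨π.symm i, τ i, by simp [actL], by simp [actL]⟩

theorem actL_2 (π : Equiv.Perm (Fin n)) (τ : Fin n → Bool) (i : Fin n) :
    ∃ j t, (actL π τ).symm.symm (i, true) = (j, !t) ∧ (actL π τ).symm.symm (i, false) = (j, t) :=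
  ⟨π i, τ (π i), by simp [actL], by simp [actL]⟩

/-- the action on clauses -/
def actC (π : Equiv.Perm (Fin n)) (τ : Fin n → Bool) : Clause n k ≃ Clause n k where
  toFun C := ⟨C.1.map (actL π τ).toEmbedding, isClause_map _ (actL_1 π τ) C.2⟩
  invFun C := ⟨C.1.map (actL π τ).symm.toEmbedding, isClause_map _ (actL_2 π τ) C.2⟩
  left_inv := by
    intro C
    apply Subtype.ext
    ext p
    simp only [mem_map_equiv, Equiv.symm_symm, Equiv.symm_apply_apply]
  right_inv := by
    intro C
    apply Subtype.ext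
    ext p
    simp only [mem_map_equiv, Equiv.symm_symm, Equiv.apply_symm_apply]

theorem sats_act (π : Equiv.Perm (Fin n)) (τ : Fin n → Bool) (a : Fin n → Bool) (C : Clause n k) :
    Sats (actA π τ a) (actC π τ C) ↔ Sats a C := by
  constructor
  · rintro ⟨p, hp, h⟩
    have h1 : (actL π τ).symm p ∈ C.1 := by
      have : p ∈ C.1.map (actL π τ).toEmbedding := hp
      rwa [mem_map_equiv] at this
    refine ⟨_, h1, ?_⟩
    have h2 : xor (a (π.symm p.1)) (τ p.1) = p.2 := h
    show a (π.symm p.1) = xor p.2 (τ p.1)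
    rw [← h2]
    simp
  · rintro ⟨p, hp, h⟩
    refine ⟨actL π τ p, ?_, ?_⟩
    · show actL π τ p ∈ C.1.map (actL π τ).toEmbedding
      rw [mem_map_equiv, Equiv.symm_apply_apply]
      exact hp
    · show xor (a (π.symm (π p.1))) (τ (π p.1)) = xor p.2 (τ (π p.1))
      rw [Equiv.symm_apply_apply, h]

theorem supp_act (π : Equiv.Perm (Fin n)) (τ : Fin n → Bool) (C : Clause n k) :
    supp (actC π τ C) = (supp C).map π.toEmbedding := by
  ext i
  rw [mem_map_equiv]
  simp only [supp, mem_image]
  constructor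
  · rintro ⟨p, hp, rfl⟩
    have h1 : (actL π τ).symm p ∈ C.1 := by
      have : p ∈ C.1.map (actL π τ).toEmbedding := hp
      rwa [mem_map_equiv] at this
    exact ⟨_, h1, rfl⟩
  · rintro ⟨p, hp, h⟩
    refine ⟨actL π τ p, ?_, ?_⟩
    · show actL π τ p ∈ C.1.map (actL π τ).toEmbedding
      rw [mem_map_equiv, Equiv.symm_apply_apply]
      exact hp
    · show π p.1 = i
      rw [h, Equiv.apply_symm_apply]

/-- the action on violated clauses -/
theorem actC_viol (π : Equiv.Perm (Fin n)) (τ : Fin n → Bool) {a : Fin n → Bool} {C : Clause n k}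
    (h : ¬ Sats a C) : actC π τ C = vcl (actA π τ a) ((supp C).map π.toEmbedding)
      (by rw [card_map, card_supp]) := by
  have h1 : ¬ Sats (actA π τ a) (actC π τ C) := fun h2 => h ((sats_act π τ a C).1 h2)
  have h2 := eq_vcl _ _ h1
  apply Subtype.ext
  rw [h2]
  ext p
  rw [mem_vcl, mem_vcl, supp_act]

end act

section average

/-- a random permutation of a fixed set with `k` elements is a random set with `k` elements -/
theorem sum_perm {n k : ℕ} (h : Finset (Fin n) → ℝ) (V0 : Finset (Fin n)) (hV : V0.card = k) :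
    (n.choose k : ℝ) * ∑ π : Equiv.Perm (Fin n), h (V0.map π.toEmbedding) =
      n.factorial * ∑ V ∈ powersetCard k (univ : Finset (Fin n)), h V := by
  have h1 : ∀ V ∈ powersetCard k (univ : Finset (Fin n)),
      ∑ π : Equiv.Perm (Fin n), h (V.map π.toEmbedding) =
        ∑ π : Equiv.Perm (Fin n), h (V0.map π.toEmbedding) := by
    intro V hV1
    rw [mem_powersetCard] at hV1
    obtain ⟨e⟩ : Nonempty ({x // x ∈ V0} ≃ {x // x ∈ V}) :=
      ⟨Fintype.equivOfCardEq (by rw [Fintype.card_coe, Fintype.card_coe, hV, hV1.2])⟩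
    set ρ : Equiv.Perm (Fin n) := e.extendSubtype with hρ
    have h2 : V0.map ρ.toEmbedding = V := by
      apply eq_of_subset_of_card_le
      · intro x hx
        obtain ⟨y, hy, rfl⟩ := mem_map.1 hx
        exact Equiv.extendSubtype_mem e y hy
      · rw [card_map, hV, hV1.2]
    rw [← h2]
    refine Fintype.sum_equiv (Equiv.mulRight ρ) _ _ fun π => ?_
    congr 1
    rw [map_map]
    rfl
  calc (n.choose k : ℝ) * ∑ π : Equiv.Perm (Fin n), h (V0.map π.toEmbedding) =
        ∑ V ∈ powersetCard k (univ : Finset (Fin n)), ∑ π : Equiv.Perm (Fin n),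
          h (V.map π.toEmbedding) := by
        rw [sum_congr rfl h1, sum_const, card_powersetCard, card_univ, Fintype.card_fin,
          nsmul_eq_mul]
    _ = ∑ π : Equiv.Perm (Fin n), ∑ V ∈ powersetCard k (univ : Finset (Fin n)),
          h (V.map π.toEmbedding) := sum_comm
    _ = ∑ _π : Equiv.Perm (Fin n), ∑ V ∈ powersetCard k (univ : Finset (Fin n)), h V := by
        refine sum_congr rfl fun π _ => ?_
        refine sum_bij (fun V _ => V.map π.toEmbedding) ?_ ?_ ?_ ?_
        · intro V hV1
          rw [mem_powersetCard] at hV1 ⊢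
          exact ⟨subset_univ _, by rw [card_map]; exact hV1.2⟩
        · intro V _ V' _ hVV
          exact map_injective _ hVV
        · intro V hV1
          rw [mem_powersetCard] at hV1
          refine ⟨V.map π.symm.toEmbedding, ?_, ?_⟩
          · rw [mem_powersetCard]
            exact ⟨subset_univ _, by rw [card_map]; exact hV1.2⟩
          · rw [map_map]
            ext x
            simp
        · intro V _
          rfl
    _ = _ := by
        rw [sum_const, card_univ, Fintype.card_perm, Fintype.card_fin, nsmul_eq_mul]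

open Classical in
/-- the image of a violated clause is a random clause which is violated by a random assignment -/
theorem sum_act {n k : ℕ} (H : (Fin n → Bool) → Clause n k → ℝ) {a : Fin n → Bool}
    {C : Clause n k} (h : ¬ Sats a C) :
    (n.choose k : ℝ) * ∑ π : Equiv.Perm (Fin n), ∑ τ : Fin n → Bool,
      H (actA π τ a) (actC π τ C) =
      n.factorial * ∑ b : Fin n → Bool, ∑ C' ∈ univ.filter (fun C' : Clause n k => ¬ Sats b C'),
        H b C' := by
  have hc : (supp C).card = k := card_supp C
  set hf : (Fin n → Bool) → Finset (Fin n) → ℝ := fun b V =>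
    if hV : V.card = k then H b (vcl b V hV) else 0 with hhf
  have h1 : ∀ π : Equiv.Perm (Fin n), ∑ τ : Fin n → Bool, H (actA π τ a) (actC π τ C) =
      ∑ b : Fin n → Bool, hf b ((supp C).map π.toEmbedding) := by
    intro π
    let e : (Fin n → Bool) ≃ (Fin n → Bool) :=
      { toFun := fun τ i => xor (a (π.symm i)) (τ i)
        invFun := fun b i => xor (a (π.symm i)) (b i)
        left_inv := fun τ => by funext i; simp
        right_inv := fun τ => by funext i; simp }
    refine Fintype.sum_equiv e _ _ fun τ => ?_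
    rw [actC_viol π τ h]
    show H (actA π τ a) _ = hf (actA π τ a) _
    simp only [hhf]
    rw [dif_pos (by rw [card_map, hc])]
  rw [sum_congr rfl fun π _ => h1 π, sum_comm, mul_sum, mul_sum]
  refine sum_congr rfl fun b _ => ?_
  rw [sum_perm (hf b) (supp C) hc]
  congr 1
  refine sum_bij' (fun V hV => vcl b V (mem_powersetCard.1 hV).2) (fun C' _ => supp C') ?_ ?_ ?_ ?_ ?_
  · intro V hV
    rw [mem_filter]
    exact ⟨mem_univ _, not_sats_vcl _ _ _⟩
  · intro C' _
    rw [mem_powersetCard]
    exact ⟨subset_univ _, card_supp C'⟩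
  · intro V hV
    exact supp_vcl _ _ _
  · intro C' hC'
    exact (eq_vcl b C' (mem_filter.1 hC').2).symm
  · intro V hV
    simp only [hhf]
    rw [dif_pos (mem_powersetCard.1 hV).2]

/-- the image of an assignment is a random assignment -/
theorem sum_actA {n : ℕ} (H : (Fin n → Bool) → ℝ) (a : Fin n → Bool) :
    ∑ π : Equiv.Perm (Fin n), ∑ τ : Fin n → Bool, H (actA π τ a) =
      n.factorial * ∑ b : Fin n → Bool, H b := by
  have h1 : ∀ π : Equiv.Perm (Fin n), ∑ τ : Fin n → Bool, H (actA π τ a) = ∑ b, H b := by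
    intro π
    let e : (Fin n → Bool) ≃ (Fin n → Bool) :=
      { toFun := fun τ i => xor (a (π.symm i)) (τ i)
        invFun := fun b i => xor (a (π.symm i)) (b i)
        left_inv := fun τ => by funext i; simp
        right_inv := fun τ => by funext i; simp }
    exact Fintype.sum_equiv e _ _ fun τ => rfl
  rw [sum_congr rfl fun π _ => h1 π, sum_const, card_univ, Fintype.card_perm, Fintype.card_fin,
    nsmul_eq_mul]

end average

section gad

variable {n d : ℕ} {W L : Type} {S : W → Finset L}

/-- the gadget after a symmetry -/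
def tr (G : Gad n d S) (π : Equiv.Perm (Fin n)) (τ : Fin n → Bool) : Gad n d S where
  lt := fun l => actC π τ (G.lt l)
  Z := G.Z.map (actC π τ).toEmbedding
  inj := (actC π τ).injective.comp G.inj
  notZ := by
    intro l hl
    rw [mem_map_equiv, Equiv.symm_apply_apply] at hl
    exact G.notZ l hl
  main := by
    rintro U ⟨a, ha⟩ hU2
    have h1 : ∀ C, C ∈ U.map (actC π τ).symm.toEmbedding ↔ actC π τ C ∈ U := by
      intro C
      rw [mem_map_equiv, Equiv.symm_symm]
    obtain ⟨t, ht⟩ := G.main (U.map (actC π τ).symm.toEmbedding) ⟨(actA π τ).symm a, fun C hC => by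
      rw [h1]
      apply ha
      intro h2
      apply hC
      rw [← sats_act π τ, Equiv.apply_symm_apply]
      exact h2⟩ (fun C hC => by
      rw [h1] at hC
      rcases hU2 _ hC with h3 | ⟨l, h3, h4⟩
      · left
        rw [mem_map_equiv, Equiv.symm_apply_apply] at h3
        exact h3
      · exact Or.inr ⟨l, h3, (actC π τ).injective h4⟩)
    exact ⟨t, fun l hl => (h1 _).1 (ht l hl)⟩
  sat := by
    intro t
    obtain ⟨a, ha, hu⟩ := G.sat t
    refine ⟨actA π τ a, fun C hC => ?_, fun b hb => ?_⟩
    · obtain ⟨C, rfl⟩ := (actC π τ).surjective C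
      rw [sats_act] at hC
      rcases ha C hC with h3 | ⟨l, h3, h4⟩
      · left
        rw [mem_map_equiv, Equiv.symm_apply_apply]
        exact h3
      · exact Or.inr ⟨l, h3, by rw [h4]⟩
    · obtain ⟨b, rfl⟩ := (actA π τ).surjective b
      congr 1
      apply hu
      intro C hC
      rcases hb (actC π τ C) (by rw [sats_act]; exact hC) with h3 | ⟨l, h3, h4⟩
      · left
        rw [mem_map_equiv, Equiv.symm_apply_apply] at h3
        exact h3
      · exact Or.inr ⟨l, h3, (actC π τ).injective h4⟩

/-- the letters of a word are violated by its assignment -/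
theorem viol_letter (G : Gad n d S) {t : W} (hS : ∀ t', S t' ⊆ S t → t' = t) {a : Fin n → Bool}
    (ha : ∀ C, ¬ Sats a C → C ∈ G.Z ∨ ∃ l ∈ S t, C = G.lt l) {l : L} (hl : l ∈ S t) :
    ¬ Sats a (G.lt l) := by
  classical
  intro hs
  set U : Finset (Clause n (d + 1)) := univ.filter fun C => ¬ Sats a C with hU
  obtain ⟨t', ht'⟩ := G.main U ⟨a, fun C hC => mem_filter.2 ⟨mem_univ _, hC⟩⟩ (fun C hC => by
    rcases ha C (mem_filter.1 hC).2 with h1 | ⟨l', h1, h2⟩
    · exact Or.inl h1
    · exact Or.inr ⟨l', ⟨t, h1⟩, h2⟩)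
  have h1 : S t' ⊆ S t := by
    intro l' hl'
    have h2 := ht' l' hl'
    rcases ha _ (mem_filter.1 h2).2 with h3 | ⟨l'', h3, h4⟩
    · exact absurd h3 (G.notZ _)
    · rw [G.inj h4]
      exact h3
  have h2 := hS t' h1
  subst h2
  exact (mem_filter.1 (ht' l hl)).2 hs

end gad

end Pool.XDT
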