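import Pool.Agent.XDT.Sym
import Pool.Agent.XDF.Test
import Pool.Agent.Helper59.CDT.Clean

/-!
# Exponents in tests of small degree
-/

set_option autoImplicit false

namespace Pool.XDT

open Finset MvPolynomial Pool.SatDet Pool.XDS Pool.Agent.Helper59.CDT

variable {n k : ℕ} {F : Type} [Field F]

open Classical in
/-- the violated clauses -/
noncomputable def viol (x : Fin n → Bool) : Finset (Clause n k) := univ.filter fun C => ¬ Sats x C

theorem mem_viol {x : Fin n → Bool} {C : Clause n k} : C ∈ viol x ↔ ¬ Sats x C := by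
  classical
  rw [viol, mem_filter]
  simp only [mem_univ, true_and]

theorem card_viol' (x : Fin n → Bool) : (viol (k := k) x).card = n.choose k := by
  classical
  exact card_viol_all x

/-- without one of the violated clauses -/
theorem not_satP_erase {x : Fin n → Bool} {C : Clause n k} (hC : C ∈ viol x) :
    open Classical in ¬ SatP n k ((viol x).erase C) := by
  classical
  rintro ⟨a, ha⟩
  have h1 : viol (k := k) a ⊆ (viol x).erase C := fun C' hC' => ha C' (mem_viol.1 hC')
  have h2 := card_le_card h1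
  rw [card_erase_of_mem hC, card_viol', card_viol'] at h2
  have h3 : 0 < (viol (k := k) x).card := card_pos.2 ⟨C, hC⟩
  rw [card_viol'] at h3
  omega

/-- an accepted input contains a monomial -/
theorem exists_mon {f : MvPolynomial (Clause n k) F} {U : Finset (Clause n k)}
    (h : rst U f ≠ 0) : ∃ μ ∈ f.support, μ.support ⊆ U := by
  classical
  by_contra hcon
  push Not at hcon
  apply h
  rw [rst_eq]
  exact sum_eq_zero fun μ hμ => absurd (mem_filter.1 hμ).2 (hcon μ (mem_filter.1 hμ).1)

/-- a monomial with variables in `U` -/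
theorem rst_ne {f : MvPolynomial (Clause n k) F} {U : Finset (Clause n k)}
    {μ : Clause n k →₀ ℕ} (hμ : μ ∈ f.support) (hU : μ.support ⊆ U) : rst U f ≠ 0 := by
  classical
  intro h0
  rw [rst_eq] at h0
  have h2 := congrArg (coeff μ) h0
  rw [coeff_sum, coeff_zero, Finset.sum_eq_single μ] at h2
  · rw [coeff_monomial, if_pos rfl] at h2
    exact (mem_support_iff.1 hμ) h2
  · intro m' _ hne
    rw [coeff_monomial, if_neg hne]
  · intro h3
    exact absurd (mem_filter.2 ⟨hμ, hU⟩) h3

open Classical in
/-- a monomial in the violated clauses -/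
noncomputable def mon (f : MvPolynomial (Clause n k) F) (x : Fin n → Bool) : Clause n k →₀ ℕ :=
  if h : rst (viol x) f ≠ 0 then (exists_mon h).choose else 0

theorem mon_spec {f : MvPolynomial (Clause n k) F} {x : Fin n → Bool} (h : rst (viol x) f ≠ 0) :
    mon f x ∈ f.support ∧ (mon f x).support ⊆ viol x := by
  classical
  rw [mon, dif_pos h]
  exact (exists_mon h).choose_spec

open Classical in
/-- the number of exponents `≥ 2` -/
noncomputable def sq (f : MvPolynomial (Clause n k) F) (x : Fin n → Bool) : ℕ :=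
  ((viol x).filter fun C => 2 ≤ mon f x C).card

open Classical in
/-- the number of clauses which are not required -/
noncomputable def nr (f : MvPolynomial (Clause n k) F) (x : Fin n → Bool) : ℕ :=
  ((viol x).filter fun C => rst ((viol x).erase C) f ≠ 0).card

open Classical in
/-- few exponents `≥ 2` -/
theorem sq_le {f : MvPolynomial (Clause n k) F} {q : ℝ} (hq : 0 ≤ q)
    (hf : (∀ μ ∈ f.support, q * ((univ.filter fun C => 2 ≤ μ C).card : ℝ) ≤ n.choose k) ∨
      q * ((f.totalDegree : ℝ) - n.choose k) ≤ n.choose k)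
    {x : Fin n → Bool} (h : rst (viol x) f ≠ 0) :
    q * (sq f x : ℝ) ≤ n.choose k + q * (nr f x : ℝ) := by
  obtain ⟨h1, h2⟩ := mon_spec h
  have hnr : 0 ≤ q * (nr f x : ℝ) := by positivity
  rcases hf with hf | hf
  · have h3 : sq f x ≤ (univ.filter fun C => 2 ≤ mon f x C).card := by
      apply card_le_card
      intro C hC
      exact mem_filter.2 ⟨mem_univ _, (mem_filter.1 hC).2⟩
    have h4 : (sq f x : ℝ) ≤ ((univ.filter fun C => 2 ≤ mon f x C).card : ℝ) := by
      exact_mod_cast h3
    have h5 := mul_le_mul_of_nonneg_left h4 hq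
    linarith [hf _ h1]
  · have h3 : sq f x + n.choose k ≤ f.totalDegree + nr f x := by
      have e1 : (mon f x).degree ≤ f.totalDegree := le_totalDegree h1
      have e2 : (mon f x).degree = ∑ C ∈ viol x, mon f x C := by
        rw [Finsupp.degree_apply]
        exact sum_subset h2 fun C _ hC => Finsupp.notMem_support_iff.1 hC
      have e3 : ∀ C ∈ viol x, 1 + (if 2 ≤ mon f x C then 1 else 0) ≤
          mon f x C + (if rst ((viol x).erase C) f ≠ 0 then 1 else 0) := by
        intro C hC
        by_cases e4 : rst ((viol x).erase C) f ≠ 0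
        · rw [if_pos e4]
          split_ifs <;> omega
        · have e5 : mon f x C ≠ 0 := by
            intro e6
            apply e4
            apply rst_ne h1
            intro C' hC'
            refine mem_erase.2 ⟨?_, h2 hC'⟩
            rintro rfl
            exact (Finsupp.mem_support_iff.1 hC') e6
          rw [if_neg e4]
          split_ifs <;> omega
      have e7 := sum_le_sum e3
      rw [sum_add_distrib, sum_add_distrib, ← card_filter, ← card_filter, sum_const, smul_eq_mul,
        mul_one, card_viol', ← e2] at e7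
      have e8 : sq f x = ((viol x).filter fun C => 2 ≤ mon f x C).card := rfl
      have e9 : nr f x = ((viol x).filter fun C => rst ((viol x).erase C) f ≠ 0).card := rfl
      rw [← e8, ← e9] at e7
      omega
    have h4 : (sq f x : ℝ) + n.choose k ≤ f.totalDegree + nr f x := by exact_mod_cast h3
    have h5 := mul_le_mul_of_nonneg_left h4 hq
    linarith

open Classical in
/-- few clauses are not required -/
theorem sum_nr_le {Ω : Type} [Fintype Ω] (pr : Ω → ℝ) (f : Ω → MvPolynomial (Clause n k) F) {b : ℝ}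
    (hno : ∀ U : Finset (Clause n k), ¬ SatP n k U →
      ∑ ω, (if rst U (f ω) ≠ 0 then pr ω else 0) ≤ b) (x : Fin n → Bool) :
    ∑ ω, pr ω * (nr (f ω) x : ℝ) ≤ n.choose k * b := by
  calc ∑ ω, pr ω * (nr (f ω) x : ℝ) =
        ∑ ω, ∑ C ∈ viol x, (if rst ((viol x).erase C) (f ω) ≠ 0 then pr ω else 0) := by
        refine sum_congr rfl fun ω _ => ?_
        rw [← sum_filter, sum_const, nsmul_eq_mul, mul_comm]
        rfl
    _ = ∑ C ∈ viol x, ∑ ω, (if rst ((viol x).erase C) (f ω) ≠ 0 then pr ω else 0) := sum_comm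
    _ ≤ ∑ _C ∈ viol (k := k) x, b := sum_le_sum fun C hC => hno _ (not_satP_erase hC)
    _ = n.choose k * b := by rw [sum_const, card_viol', nsmul_eq_mul]

open Classical in
/-- the expected number of exponents `≥ 2` -/
theorem sum_sq_le {Ω : Type} [Fintype Ω] (pr : Ω → ℝ) (h0 : ∀ ω, 0 ≤ pr ω)
    (f : Ω → MvPolynomial (Clause n k) F) {b q : ℝ} (hq : 0 ≤ q)
    (hno : ∀ U : Finset (Clause n k), ¬ SatP n k U →
      ∑ ω, (if rst U (f ω) ≠ 0 then pr ω else 0) ≤ b)
    (hf : ∀ ω, (∀ μ ∈ (f ω).support, q * ((univ.filter fun C => 2 ≤ μ C).card : ℝ) ≤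
      n.choose k) ∨ q * (((f ω).totalDegree : ℝ) - n.choose k) ≤ n.choose k)
    (x : Fin n → Bool) :
    q * ∑ ω, (if rst (viol x) (f ω) ≠ 0 then pr ω * (sq (f ω) x : ℝ) else 0) ≤
      n.choose k * (∑ ω, (if rst (viol x) (f ω) ≠ 0 then pr ω else 0) + q * b) := by
  have h1 := mul_le_mul_of_nonneg_left (sum_nr_le pr f hno x) hq
  have h2 : ∀ ω, q * (if rst (viol x) (f ω) ≠ 0 then pr ω * (sq (f ω) x : ℝ) else 0) ≤
      n.choose k * (if rst (viol x) (f ω) ≠ 0 then pr ω else 0) + q * (pr ω * (nr (f ω) x : ℝ)) := by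
    intro ω
    by_cases h3 : rst (viol x) (f ω) ≠ 0
    · rw [if_pos h3, if_pos h3]
      have h4 := mul_le_mul_of_nonneg_left (sq_le hq (hf ω) h3) (h0 ω)
      linarith
    · rw [if_neg h3, if_neg h3]
      have h4 : 0 ≤ q * (pr ω * (nr (f ω) x : ℝ)) :=
        mul_nonneg hq (mul_nonneg (h0 ω) (Nat.cast_nonneg _))
      linarith
  have h3 := sum_le_sum fun ω (_ : ω ∈ (univ : Finset Ω)) => h2 ω
  rw [← mul_sum, sum_add_distrib, ← mul_sum, ← mul_sum] at h3
  linarith

end Pool.XDT
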