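import Pool.Agent.XDF.Final
import Pool.Agent.XDT.Core
import Pool.Agent.XDT.Deg

/-!
# Tests for `k`-SAT of constant depth with two sided error, without multilinearity
-/

set_option autoImplicit false

namespace Pool.XDT

open Finset Pool.SatDet Pool.XDA Pool.XD Pool.XDS Pool.XDE Pool.CD Pool.CDep
  Pool.Agent.Helper41.CD Pool.Agent.Helper59.CDT

/-- the choices, the permutations and the changes of signs -/
abbrev Om (Ω : Type) (n : ℕ) : Type := Ω × (Equiv.Perm (Fin n) × (Fin n → Bool))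

theorem sum_Om {Ω : Type} [Fintype Ω] {n : ℕ} (h : Om Ω n → ℝ) :
    ∑ ω, h ω = ∑ ω : Ω, ∑ π : Equiv.Perm (Fin n), ∑ τ : Fin n → Bool, h (ω, π, τ) := by
  rw [Fintype.sum_prod_type]
  exact sum_congr rfl fun ω _ => Fintype.sum_prod_type _

theorem sum_Om' {Ω : Type} [Fintype Ω] {n : ℕ} (h : Om Ω n → ℝ) :
    ∑ ω, h ω = ∑ π : Equiv.Perm (Fin n), ∑ τ : Fin n → Bool, ∑ ω : Ω, h (ω, π, τ) := by
  rw [sum_Om, sum_comm]
  exact sum_congr rfl fun π _ => sum_comm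

open Classical in
/-- the core inequality, averaged over the symmetries -/
theorem sym_core {n d g kb l k T S w w0 : ℕ} {F : Type} [Field F] {HU HV : ℝ} {τ : ℕ → Bool}
    (hkb : 1 ≤ kb) (hHU : 1 < HU) (hHV : 1 < HV) (hbU : Bal τ true HU)
    (hbV : Bal τ false HV)
    (hlU : 4 * ((kb + l : ℕ) : ℝ) ^ 2 * HU ≤ 2 ^ l) (hlV : 4 * ((kb + l : ℕ) : ℝ) ^ 2 * HV ≤ 2 ^ l)
    (hg : 1 ≤ g) (G : Gad n d (gS (g := g) (ltS (k := kb) l)))
    {Ω : Type} [Fintype Ω] (pr : Ω → ℝ) (h0 : ∀ ω, 0 ≤ pr ω) (h1 : ∑ ω, pr ω = 1)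
    (f : Ω → Fin T → Fin S → MvPolynomial (Clause n (d + 1)) F)
    (hf : ∀ ω i j, f ω i j ∈ Cls w0 w S k)
    (hS : 1 ≤ S) (hw : 1 ≤ w) (hw0 : 1 ≤ w0) {a b q : ℝ} (ha : 0 < a) (hb : b * q ≤ a)
    (hq : 12 * ((kb + l : ℕ) : ℝ) ≤ q)
    (hsq : ∀ ω, (∀ μ ∈ (∑ i, ∏ j, f ω i j).support,
      q * ((univ.filter fun C => 2 ≤ μ C).card : ℝ) ≤ n.choose (d + 1)) ∨
      q * (((∑ i, ∏ j, f ω i j).totalDegree : ℝ) - n.choose (d + 1)) ≤ n.choose (d + 1))
    (hno : ∀ U : Finset (Clause n (d + 1)), ¬ SatP n (d + 1) U →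
      ∑ ω, (if rst U (∑ i, ∏ j, f ω i j) ≠ 0 then pr ω else 0) ≤ b)
    (hyes : a * 2 ^ n ≤ ∑ x : Fin n → Bool,
      ∑ ω, if rst (viol x) (∑ i, ∏ j, f ω i j) ≠ 0 then pr ω else 0)
    {X Y : ℕ → ℝ} (hX : ∀ i, 0 < X i) (hY : ∀ i, 0 < Y i) (hX0 : X 0 = 1) (hY0 : Y 0 = 1)
    (hnum : ∀ g' ≤ g, ∀ i ≤ 2 * k, NumD (g' * (kb + l)) (S * ((g' * (kb + l) : ℕ) + 1) ^
      (8 * (w0 + w) + 16)) HU HV (X i) (Y i) (X (i + 1)) (Y (i + 1))) :
    ∃ g' r E : ℕ, g' ≤ g ∧ g ≤ 2 * g' ∧ r = cnt τ true 0 (kb + l) ∧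
      E = cnt τ false 0 (kb + l) ∧ r + E = kb + l ∧
      a / 2 * (2 : ℝ) ^ (g' * kb) ≤ 2 ^ g * ((4 * (r + 1) * (E + 1)) ^ g' *
        (T * (((g' * (kb + l) : ℕ) + 1 : ℝ) ^ 16 *
        (X (2 * k + 1) ^ (g' * r) * Y (2 * k + 1) ^ (g' * E))))) := by
  obtain ⟨N, hN⟩ : ∃ N : ℝ, N = n.choose (d + 1) := ⟨_, rfl⟩
  obtain ⟨κ, hκ⟩ : ∃ κ : ℝ, κ = 1 / (n.factorial * 2 ^ n) := ⟨_, rfl⟩
  have hfac : (0 : ℝ) < n.factorial := by exact_mod_cast n.factorial_pos
  have h2n : (0 : ℝ) < 2 ^ n := by positivity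
  have hκ0 : 0 < κ := by rw [hκ]; positivity
  have hκ1 : κ * (n.factorial * 2 ^ n) = 1 := by
    rw [hκ]
    field_simp
  obtain ⟨fp, hfp⟩ : ∃ fp : Ω → MvPolynomial (Clause n (d + 1)) F, ∀ ω, fp ω = ∑ i, ∏ j, f ω i j :=
    ⟨_, fun _ => rfl⟩
  -- the probability of acceptance
  obtain ⟨P, hP⟩ : ∃ P : (Fin n → Bool) → ℝ, ∀ x, P x = ∑ ω, if rst (viol x) (fp ω) ≠ 0
      then pr ω else 0 := ⟨_, fun _ => rfl⟩
  obtain ⟨Pb, hPb⟩ : ∃ Pb : ℝ, Pb = (∑ x, P x) / 2 ^ n := ⟨_, rfl⟩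
  have haP : a ≤ Pb := by
    rw [hPb, le_div_iff₀ h2n]
    refine hyes.trans (le_of_eq (sum_congr rfl fun x _ => ?_))
    rw [hP]
    simp only [hfp]
  have hPb0 : 0 < Pb := by linarith
  have hkl : (1 : ℝ) ≤ ((kb + l : ℕ) : ℝ) := by
    exact_mod_cast Nat.le_add_right_of_le hkb
  have hq0 : 0 < q := by linarith
  have hno1 : ∀ U : Finset (Clause n (d + 1)), ¬ SatP n (d + 1) U →
      ∑ ω, (if rst U (fp ω) ≠ 0 then pr ω else 0) ≤ b := by
    intro U hU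
    simp only [hfp]
    exact hno U hU
  -- the assignments of the words
  choose as has hasu using fun s => G.sat s
  have hlet : ∀ s : Fin g → Fin kb → Bool, ∀ x ∈ gS (g := g) (ltS (k := kb) l) s,
      ¬ Sats (as s) (G.lt x) := fun s x hx =>
    viol_letter G (fun t' h => gS_subset_eq h) (has s) hx
  have hexp : ∀ x : Fin n → Bool, q * ∑ ω, (if rst (viol x) (fp ω) ≠ 0 then
      pr ω * (sq (fp ω) x : ℝ) else 0) ≤ N * (P x + q * b) := by
    intro x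
    have e1 := sum_sq_le pr h0 fp hq0.le hno1 (fun ω => by rw [hfp]; exact hsq ω) x
    rw [hP, hN]
    exact e1
  -- the bound for the exponents
  have hsq' : ∀ s : Fin g → Fin kb → Bool, ∀ x ∈ gS (g := g) (ltS (k := kb) l) s,
      ∑ ω : Om Ω n, (if rst (viol (actA ω.2.1 ω.2.2 (as s))) (fp ω.1) ≠ 0 ∧
        2 ≤ mon (fp ω.1) (actA ω.2.1 ω.2.2 (as s)) ((tr G ω.2.1 ω.2.2).lt x) then
          pr ω.1 * κ else 0) ≤ 2 * Pb / q := by
    intro s x hx
    have hv := hlet s x hx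
    have hN0 : 0 < N := by
      rw [hN, ← card_viol' (k := d + 1) (as s)]
      exact_mod_cast card_pos.2 ⟨_, mem_viol.2 hv⟩
    have e1 := sum_act (fun (y : Fin n → Bool) (C : Clause n (d + 1)) =>
      ∑ ω, (if rst (viol y) (fp ω) ≠ 0 ∧ 2 ≤ mon (fp ω) y C then pr ω else 0)) hv
    have e2 : ∀ y : Fin n → Bool, ∑ C ∈ univ.filter (fun C : Clause n (d + 1) => ¬ Sats y C),
        ∑ ω, (if rst (viol y) (fp ω) ≠ 0 ∧ 2 ≤ mon (fp ω) y C then pr ω else 0) =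
        ∑ ω, (if rst (viol y) (fp ω) ≠ 0 then pr ω * (sq (fp ω) y : ℝ) else 0) := by
      intro y
      rw [sum_comm]
      refine sum_congr rfl fun ω _ => ?_
      by_cases h3 : rst (viol y) (fp ω) ≠ 0
      · rw [if_pos h3, sq, card_filter]
        push_cast
        rw [mul_sum]
        have h4 : (univ.filter fun C : Clause n (d + 1) => ¬ Sats y C) = viol y := rfl
        rw [h4]
        refine sum_congr rfl fun C _ => ?_
        by_cases h5 : 2 ≤ mon (fp ω) y C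
        · rw [if_pos ⟨h3, h5⟩, if_pos h5, mul_one]
        · rw [if_neg (fun h => h5 h.2), if_neg h5, mul_zero]
      · rw [if_neg h3]
        exact sum_eq_zero fun C _ => if_neg fun h => h3 h.1
    rw [sum_congr rfl fun y _ => e2 y, ← hN] at e1
    have e3 : ∑ ω : Om Ω n, (if rst (viol (actA ω.2.1 ω.2.2 (as s))) (fp ω.1) ≠ 0 ∧
        2 ≤ mon (fp ω.1) (actA ω.2.1 ω.2.2 (as s)) ((tr G ω.2.1 ω.2.2).lt x) then
          pr ω.1 * κ else 0) = κ * ∑ π : Equiv.Perm (Fin n), ∑ τ : Fin n → Bool,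
        ∑ ω, (if rst (viol (actA π τ (as s))) (fp ω) ≠ 0 ∧
          2 ≤ mon (fp ω) (actA π τ (as s)) (actC π τ (G.lt x)) then pr ω else 0) := by
      rw [sum_Om', mul_sum]
      refine sum_congr rfl fun π _ => ?_
      rw [mul_sum]
      refine sum_congr rfl fun τ _ => ?_
      rw [mul_sum]
      refine sum_congr rfl fun ω _ => ?_
      simp only [tr]
      rw [mul_ite, mul_zero, mul_comm κ]
    obtain ⟨Zs, hZs⟩ : ∃ Zs : ℝ, Zs = ∑ π : Equiv.Perm (Fin n), ∑ τ : Fin n → Bool,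
        ∑ ω, (if rst (viol (actA π τ (as s))) (fp ω) ≠ 0 ∧
          2 ≤ mon (fp ω) (actA π τ (as s)) (actC π τ (G.lt x)) then pr ω else 0) := ⟨_, rfl⟩
    rw [← hZs] at e1
    rw [e3, ← hZs, le_div_iff₀ hq0]
    have e4 : q * ∑ y : Fin n → Bool, ∑ ω, (if rst (viol y) (fp ω) ≠ 0 then
        pr ω * (sq (fp ω) y : ℝ) else 0) ≤ N * (2 ^ n * (2 * Pb)) := by
      rw [mul_sum]
      calc ∑ y : Fin n → Bool, q * ∑ ω, (if rst (viol y) (fp ω) ≠ 0 then
            pr ω * (sq (fp ω) y : ℝ) else 0) ≤ ∑ y : Fin n → Bool, N * (P y + q * b) :=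
            sum_le_sum fun y _ => hexp y
        _ = N * (∑ y, P y + 2 ^ n * (q * b)) := by
            rw [← mul_sum, sum_add_distrib, sum_const, card_univ, Fintype.card_fun,
              Fintype.card_bool, Fintype.card_fin, nsmul_eq_mul]
            push_cast
            rfl
        _ ≤ N * (2 ^ n * (2 * Pb)) := by
            apply mul_le_mul_of_nonneg_left _ hN0.le
            have h5 : ∑ y, P y = 2 ^ n * Pb := by
              rw [hPb]
              field_simp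
            have h6 : q * b ≤ Pb := by linarith [mul_comm q b]
            have h7 := mul_le_mul_of_nonneg_left h6 h2n.le
            linarith
    refine le_of_mul_le_mul_left ?_ hN0
    calc N * (κ * Zs * q) = κ * q * (N * Zs) := by ring
      _ = κ * n.factorial * (q * ∑ y : Fin n → Bool, ∑ ω, (if rst (viol y) (fp ω) ≠ 0 then
          pr ω * (sq (fp ω) y : ℝ) else 0)) := by
          rw [e1]
          ring
      _ ≤ κ * n.factorial * (N * (2 ^ n * (2 * Pb))) :=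
          mul_le_mul_of_nonneg_left e4 (by positivity)
      _ = κ * (n.factorial * 2 ^ n) * (N * (2 * Pb)) := by ring
      _ = N * (2 * Pb) := by rw [hκ1, one_mul]
  have hbq : b ≤ Pb / q := by
    rw [le_div_iff₀ hq0]
    linarith
  have hD : 4 * ((kb + l : ℕ) : ℝ) * (b + 2 * Pb / q) ≤ Pb := by
    have h3 : b + 2 * Pb / q ≤ 3 * Pb / q := by
      have : 3 * Pb / q = Pb / q + 2 * Pb / q := by ring
      linarith
    calc 4 * ((kb + l : ℕ) : ℝ) * (b + 2 * Pb / q) ≤ 4 * ((kb + l : ℕ) : ℝ) * (3 * Pb / q) :=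
          mul_le_mul_of_nonneg_left h3 (by positivity)
      _ = 12 * ((kb + l : ℕ) : ℝ) * (Pb / q) := by ring
      _ ≤ q * (Pb / q) := mul_le_mul_of_nonneg_right hq (by positivity)
      _ = Pb := by field_simp
  obtain ⟨ac, hac⟩ : ∃ ac : Om Ω n → (Fin g → Fin kb → Bool) → Prop, ∀ ω s, ac ω s ↔
      rst (viol (actA ω.2.1 ω.2.2 (as s))) (fp ω.1) ≠ 0 :=
    ⟨fun ω s => rst (viol (actA ω.2.1 ω.2.2 (as s))) (fp ω.1) ≠ 0, fun _ _ => Iff.rfl⟩
  have hsq'' : ∀ s : Fin g → Fin kb → Bool, ∀ x ∈ gS (g := g) (ltS (k := kb) l) s,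
      ∑ ω : Om Ω n, (if ac ω s ∧
        2 ≤ mon (fp ω.1) (actA ω.2.1 ω.2.2 (as s)) ((tr G ω.2.1 ω.2.2).lt x) then
          pr ω.1 * κ else 0) ≤ 2 * Pb / q := by
    intro s x hx
    refine le_trans (le_of_eq (sum_congr rfl fun ω _ => ?_)) (hsq' s x hx)
    by_cases h3 : rst (viol (actA ω.2.1 ω.2.2 (as s))) (fp ω.1) ≠ 0 ∧
        2 ≤ mon (fp ω.1) (actA ω.2.1 ω.2.2 (as s)) ((tr G ω.2.1 ω.2.2).lt x)
    · rw [if_pos h3, if_pos ⟨(hac ω s).2 h3.1, h3.2⟩]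
    · rw [if_neg h3, if_neg fun h => h3 ⟨(hac ω s).1 h.1, h.2⟩]
  have hyes'' : ∀ s : Fin g → Fin kb → Bool,
      Pb ≤ ∑ ω : Om Ω n, (if ac ω s then pr ω.1 * κ else 0) := by
    intro s
    rw [sum_Om']
    have h3 : ∀ π : Equiv.Perm (Fin n), ∀ τ : Fin n → Bool,
        ∑ ω : Ω, (if ac (ω, π, τ) s then pr ω * κ else 0) = κ * P (actA π τ (as s)) := by
      intro π τ
      rw [hP, mul_sum]
      refine sum_congr rfl fun ω _ => ?_
      have h5 := hac (ω, π, τ) s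
      dsimp only at h5
      by_cases h4 : rst (viol (actA π τ (as s))) (fp ω) ≠ 0
      · rw [if_pos h4, if_pos (h5.2 h4), mul_comm]
      · rw [if_neg h4, if_neg fun h => h4 (h5.1 h), mul_zero]
    refine le_of_eq (Eq.symm ?_)
    calc ∑ π : Equiv.Perm (Fin n), ∑ τ : Fin n → Bool,
          ∑ ω : Ω, (if ac (ω, π, τ) s then pr ω * κ else 0) =
          ∑ π : Equiv.Perm (Fin n), ∑ τ : Fin n → Bool, κ * P (actA π τ (as s)) :=
          sum_congr rfl fun π _ => sum_congr rfl fun τ _ => h3 π τ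
      _ = n.factorial * ∑ x, κ * P x := sum_actA (fun x => κ * P x) (as s)
      _ = κ * (n.factorial * 2 ^ n) * Pb := by
          rw [← mul_sum, hPb]
          field_simp
      _ = Pb := by rw [hκ1, one_mul]
  obtain ⟨g', r, E, hg1, hg2, hr, hE, hrE, hcard⟩ := Pool.XDF.sat_core' (τ := τ) hkb hHU hHV hbU hbV
    hlU hlV hg (fun ω : Om Ω n => tr G ω.2.1 ω.2.2) (fun ω => pr ω.1 * κ)
    (fun ω => mul_nonneg (h0 _) hκ0.le) (by
      rw [sum_Om]
      simp only [sum_const, card_univ, Fintype.card_perm, Fintype.card_fin, Fintype.card_fun,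
        Fintype.card_bool, nsmul_eq_mul]
      rw [← mul_sum, ← mul_sum, ← sum_mul, h1, one_mul]
      push_cast
      linarith)
    (fun ω => f ω.1) (fun ω => hf ω.1) hS hw hw0
    ac (fun ω s => mon (fp ω.1) (actA ω.2.1 ω.2.2 (as s)))
    (fun ω s hacc => by
      obtain ⟨h3, h4⟩ := mon_spec ((hac ω s).1 hacc)
      have h3' : (∑ i, ∏ j, f ω.1 i j).support = (fp ω.1).support := by rw [hfp]
      rw [h3']
      refine ⟨h3, fun C hC => ?_⟩
      have h5 := mem_viol.1 (h4 hC)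
      obtain ⟨C, rfl⟩ := (actC ω.2.1 ω.2.2).surjective C
      rw [sats_act] at h5
      rw [Uw, mem_filter]
      refine ⟨mem_univ _, ?_⟩
      rcases has s C h5 with h6 | ⟨x, h6, h7⟩
      · left
        show actC ω.2.1 ω.2.2 C ∈ G.Z.map (actC ω.2.1 ω.2.2).toEmbedding
        rw [mem_map_equiv, Equiv.symm_apply_apply]
        exact h6
      · exact Or.inr ⟨x, h6, by rw [h7]; rfl⟩)
    hPb0 hD
    (fun B hB => by
      rw [sum_Om']
      have h3 : ∀ π : Equiv.Perm (Fin n), ∀ τ : Fin n → Bool,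
          ∑ ω : Ω, (if rst (UB (tr G π τ) B) (∑ i, ∏ j, f ω i j) ≠ 0 then pr ω * κ else 0) ≤
            κ * b := by
        intro π τ
        calc ∑ ω : Ω, (if rst (UB (tr G π τ) B) (∑ i, ∏ j, f ω i j) ≠ 0 then pr ω * κ else 0) =
              κ * ∑ ω : Ω, (if rst (UB (tr G π τ) B) (∑ i, ∏ j, f ω i j) ≠ 0
                then pr ω else 0) := by
              rw [mul_sum]
              refine sum_congr rfl fun ω _ => ?_
              rw [mul_ite, mul_zero, mul_comm κ]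
          _ ≤ κ * b := mul_le_mul_of_nonneg_left (hno _ (unsat_UB (tr G π τ) hB)) hκ0.le
      refine (sum_le_sum fun π _ => sum_le_sum fun τ _ => h3 π τ).trans (le_of_eq ?_)
      simp only [sum_const, card_univ, Fintype.card_perm, Fintype.card_fin, Fintype.card_fun,
        Fintype.card_bool, nsmul_eq_mul]
      push_cast
      calc (n.factorial : ℝ) * (2 ^ n * (κ * b)) = κ * (n.factorial * 2 ^ n) * b := by ring
        _ = b := by rw [hκ1, one_mul])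
    hyes'' hsq'' hX hY hX0 hY0 hnum
  refine ⟨g', r, E, hg1, hg2, hr, hE, hrE, le_trans ?_ hcard⟩
  apply mul_le_mul_of_nonneg_right _ (by positivity)
  linarith

end Pool.XDT
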