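import Pool.Agent.XDF.Num

/-!
# The numbers for `K`-SAT: a better bound for the ratio of the errors
-/

set_option autoImplicit false

namespace Pool.XDT

open Real Pool.XD Pool.XDA Pool.XDF

/-- **the parameters and the final bound**, with a constant which depends on `K` only -/
theorem xdt_final (K : ℕ) (hK : 1 ≤ K) : ∃ C : ℝ, 1 ≤ C ∧ ∀ (k n : ℕ) (ta q : ℝ) (S w w0 : ℕ),
    1 ≤ ta → 2 ≤ S → 1 ≤ w → 1 ≤ w0 →
    ∃ (θ : ℝ) (kb l u : ℕ) (X Y : ℕ → ℝ), 0 < θ ∧ θ < 1 ∧ 1 ≤ kb ∧ K * u = l + 1 ∧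
      4 * ((kb + l : ℕ) : ℝ) ^ 2 * 2 ^ (1 / θ) ≤ 2 ^ l ∧
      4 * ((kb + l : ℕ) : ℝ) ^ 2 * 2 ^ (1 / (1 - θ)) ≤ 2 ^ l ∧
      X 0 = 1 ∧ Y 0 = 1 ∧ (∀ i, 0 < X i) ∧ (∀ i, 0 < Y i) ∧
      (∀ d ≤ n, ∀ i ≤ 2 * k, NumD d (S * (d + 1) ^ (8 * (w0 + w) + 16)) (2 ^ (1 / θ))
        (2 ^ (1 / (1 - θ))) (X i) (Y i) (X (i + 1)) (Y (i + 1))) ∧
      ((4 * ((kb + l : ℕ) : ℝ) ≤ q → ∀ g : ℕ, 1 ≤ g → g * (2 * K * (kb + l) * 2 ^ u) ≤ n →
        ∃ g' r E : ℕ, g' ≤ g ∧ g ≤ 2 * g' ∧ r + E = kb + l ∧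
          (2 ^ (1 / θ) : ℝ) ^ r ≤ 2 ^ (kb + l) ∧
          (2 ^ (1 / (1 - θ)) : ℝ) ^ E ≤ 2 ^ (1 / (1 - θ)) * 2 ^ (kb + l) ∧
          (2 : ℝ) ^ (g' * kb) ≤ 2 ^ g * ((4 * (r + 1) * (E + 1)) ^ g' *
            (ta * (((g' * (kb + l) : ℕ) + 1 : ℝ) ^ 16
            * (X (2 * k + 1) ^ (g' * r) * Y (2 * k + 1) ^ (g' * E)))))) →
        (n : ℝ) ≤ C * Real.log (2 * n * ta) * (C * (Real.log S + (w + w0) * Real.log (2 * n))) ^
          ((1 + 2 / (K : ℝ)) * ((Nat.fib (2 * k + 4) : ℝ) - 2) + 1 / K) ∨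
        q ≤ (C * (Real.log S + (w + w0) * Real.log (2 * n))) ^
          ((Nat.fib (2 * k + 4) : ℝ) - 2 + 1 / K)) := by
  have hKr : (1 : ℝ) ≤ K := by exact_mod_cast hK
  have hK0 : (0 : ℝ) < K := by linarith
  obtain ⟨C1, hC1⟩ : ∃ C1 : ℝ, C1 = 2048 * K * ((512 * K) ^ 3 * (27 * (K : ℝ) ^ 3)) := ⟨_, rfl⟩
  have hC10 : 0 ≤ C1 := by rw [hC1]; positivity
  obtain ⟨D, hD⟩ : ∃ D : ℝ, D = 8 * 512 * K * (27 * (K : ℝ) ^ 3) := ⟨_, rfl⟩
  have hK3 : (1 : ℝ) ≤ (K : ℝ) ^ 3 := one_le_pow₀ hKr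
  have hD1 : (1 : ℝ) ≤ D := by
    rw [hD]
    nlinarith
  obtain ⟨C, hC⟩ : ∃ C : ℝ, C = 60 * C1 + D * 3150 := ⟨_, rfl⟩
  have hCK : D * 3150 ≤ C := by linarith
  have hC60 : 60 * C1 ≤ C := by linarith
  have hC3 : (3150 : ℝ) ≤ C := by linarith
  refine ⟨C, by linarith, ?_⟩
  intro k n ta q S w w0 hta hS hw hw0
  obtain ⟨p, hp⟩ : ∃ p : ℕ, p = Nat.fib (2 * k + 4) - 2 := ⟨_, rfl⟩
  have hfib : 3 ≤ Nat.fib (2 * k + 4) := by
    have h1 : Nat.fib 4 ≤ Nat.fib (2 * k + 4) := Nat.fib_mono (by omega)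
    exact h1
  have hp1 : 1 ≤ p := by omega
  have hpf : (Nat.fib (2 * k + 4) : ℝ) = p + 2 := by
    have : Nat.fib (2 * k + 4) = p + 2 := by omega
    rw [this]
    push_cast
    rfl
  have hSr : (2 : ℝ) ≤ S := by exact_mod_cast hS
  have hl2 := log_two_gt_d9
  have hlS : log 2 ≤ log S := log_le_log (by norm_num) hSr
  obtain ⟨κ, hκ⟩ : ∃ κ : ℝ, κ = S * (n + 1 : ℝ) ^ (16 * (w + w0)) := ⟨_, rfl⟩
  have hn1 : (1 : ℝ) ≤ n + 1 := by
    have : (0 : ℝ) ≤ n := Nat.cast_nonneg _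
    linarith
  have hκ1 : 1 ≤ κ := by
    rw [hκ]
    have := one_le_pow₀ (n := 16 * (w + w0)) hn1
    nlinarith
  have hlκ : log κ = log S + 16 * (w + w0) * log (n + 1) := by
    rw [hκ, log_mul (by positivity) (by positivity), log_pow]
    push_cast
    ring
  obtain ⟨σ, hσ⟩ : ∃ σ : ℕ, σ = ⌈2 * log κ⌉₊ := ⟨_, rfl⟩
  have hlκ0 : 0.6931 < log κ := by
    rw [hlκ]
    have : 0 ≤ (16 : ℝ) * (w + w0) * log (n + 1) :=
      mul_nonneg (by positivity) (log_nonneg hn1)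
    linarith
  have hσ1 : 2 * log κ ≤ σ := by rw [hσ]; exact Nat.le_ceil _
  have hσ2 : (σ : ℝ) ≤ 2 * log κ + 1 := by
    rw [hσ]
    exact (Nat.ceil_lt_add_one (by linarith)).le
  have hσ0 : 1 ≤ σ := by
    have : (0 : ℝ) < σ := by linarith
    have : 0 < σ := by exact_mod_cast this
    omega
  obtain ⟨A, B, s, X, Y, hs, hB, hBA, hA2, hsA, hX0, hY0, hXp, hYp, hch, hXL, hYL⟩ :=
    growth_chain (2 * k + 1) σ (by omega) hσ0 κ hκ1 (by linarith)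
  rw [show 2 * k + 1 + 3 = 2 * k + 4 by ring, ← hp] at hsA
  have hA : 1 ≤ A := hB.trans hBA
  have hAr : (1 : ℝ) ≤ A := by exact_mod_cast hA
  have hBr : (1 : ℝ) ≤ B := by exact_mod_cast hB
  have hBAr : (B : ℝ) ≤ A := by exact_mod_cast hBA
  have hA2r : (A : ℝ) ≤ 2 * B := by exact_mod_cast hA2
  obtain ⟨N, hN⟩ : ∃ N, N = s * A := ⟨_, rfl⟩
  have hN1 : 1 ≤ N := by rw [hN]; exact Nat.mul_pos hs hA
  have hNr : ((s : ℝ) * A) = N := by rw [hN]; push_cast; rfl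
  rw [← hN] at hsA
  rw [hNr] at hXL hYL
  obtain ⟨Lg, hLg⟩ : ∃ Lg, Lg = Nat.log 2 N + 1 := ⟨_, rfl⟩
  obtain ⟨kb, hkb⟩ : ∃ kb, kb = 128 * K * N * Lg := ⟨_, rfl⟩
  have hkbK : 128 * K ≤ kb := by
    have h1 : 1 ≤ N * Lg := Nat.mul_pos hN1 (by omega)
    rw [hkb, mul_assoc]
    exact Nat.le_mul_of_pos_right _ h1
  have hkb15 : 15 ≤ kb := by omega
  obtain ⟨l, u, hlu, hl1, hl3, hl4⟩ := exists_l' hK hkbK
  obtain ⟨t, ht⟩ : ∃ t : ℝ, t = log 2 * (((A : ℝ) + B) / B) := ⟨_, rfl⟩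
  obtain ⟨θ, hθ⟩ : ∃ θ : ℝ, θ = (B : ℝ) / (A + B) := ⟨_, rfl⟩
  have hAB0 : (0 : ℝ) < A + B := by linarith
  have hθ0 : 0 < θ := by rw [hθ]; positivity
  have hθ1 : θ < 1 := by
    rw [hθ, div_lt_one hAB0]
    linarith
  have hθi : 1 / θ = ((A : ℝ) + B) / B := by
    rw [hθ, one_div_div]
  have h1θ : 1 - θ = (A : ℝ) / (A + B) := by
    rw [hθ]
    field_simp
    ring
  have h1θi : 1 / (1 - θ) = ((A : ℝ) + B) / A := by
    rw [h1θ, one_div_div]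
  have hHU : (2 : ℝ) ^ (1 / θ) = exp t := by
    rw [rpow_def_of_pos (by norm_num), hθi, ht]
  have hHV : (2 : ℝ) ^ (1 / (1 - θ)) = exp (t * ((B : ℝ) / A)) := by
    rw [rpow_def_of_pos (by norm_num), h1θi, ht]
    congr 1
    field_simp
  have ht1 : 1 ≤ t := by
    have h1 : (2 : ℝ) ≤ ((A : ℝ) + B) / B := by
      rw [le_div_iff₀ (by linarith)]
      linarith
    have h2 := mul_le_mul_of_nonneg_left h1 (show (0 : ℝ) ≤ log 2 by linarith)
    rw [ht]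
    linarith
  have hHU8 : (2 : ℝ) ^ (1 / θ) ≤ 8 := by
    rw [hθi]
    have h1 : ((A : ℝ) + B) / B ≤ 3 := by
      rw [div_le_iff₀ (by linarith)]
      linarith
    calc (2 : ℝ) ^ (((A : ℝ) + B) / B) ≤ 2 ^ (3 : ℝ) := rpow_le_rpow_of_exponent_le (by norm_num) h1
      _ = 8 := by norm_num
  have hHV8 : (2 : ℝ) ^ (1 / (1 - θ)) ≤ 8 := by
    rw [h1θi]
    have h1 : ((A : ℝ) + B) / A ≤ 3 := by
      rw [div_le_iff₀ (by linarith)]
      linarith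
    calc (2 : ℝ) ^ (((A : ℝ) + B) / A) ≤ 2 ^ (3 : ℝ) := rpow_le_rpow_of_exponent_le (by norm_num) h1
      _ = 8 := by norm_num
  have hside : ∀ H : ℝ, H ≤ 8 → 4 * ((kb + l : ℕ) : ℝ) ^ 2 * H ≤ 2 ^ l := by
    intro H hH
    have h1 : ((kb + l : ℕ) : ℝ) ≤ 2 * kb := by
      have : (l : ℝ) ≤ kb := by exact_mod_cast hl1
      push_cast
      linarith
    have h2 : ((kb + l : ℕ) : ℝ) ^ 2 ≤ (2 * kb) ^ 2 := pow_le_pow_left₀ (Nat.cast_nonneg _) h1 2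
    have h3 : (128 : ℝ) * kb ^ 2 ≤ 2 ^ l := by exact_mod_cast hl3
    calc 4 * ((kb + l : ℕ) : ℝ) ^ 2 * H ≤ 4 * ((kb + l : ℕ) : ℝ) ^ 2 * 8 :=
          mul_le_mul_of_nonneg_left hH (by positivity)
      _ ≤ 128 * (kb : ℝ) ^ 2 := by
          have : (2 * (kb : ℝ)) ^ 2 = 4 * kb ^ 2 := by ring
          linarith
      _ ≤ _ := h3
  refine ⟨θ, kb, l, u, fun i => X i ^ t, fun i => Y i ^ t, hθ0, hθ1, by omega, hlu, hside _ hHU8,
    hside _ hHV8, ?_, ?_, fun i => rpow_pos_of_pos (hXp i) _, fun i => rpow_pos_of_pos (hYp i) _,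
    ?_, ?_⟩
  · show X 0 ^ t = 1
    rw [hX0, one_rpow]
  · show Y 0 ^ t = 1
    rw [hY0, one_rpow]
  · intro d hd i hi
    have h1 := numAll_rpow (exp_pos 1).le (exp_pos _).le hκ1 (hXp i).le (hYp i).le
      (hXp (i + 1)).le (hYp (i + 1)).le ht1 (hch i (by omega))
    rw [← exp_one_rpow t] at hHU
    rw [mul_comm, exp_mul] at hHV
    rw [← hHU, ← hHV] at h1
    intro b e hbe _
    rcases h1 b e hbe with h2 | h2 | h2
    · exact Or.inr (Or.inl h2)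
    · exact Or.inl h2
    · refine Or.inr (Or.inr (le_trans ?_ h2))
      apply mul_le_mul_of_nonneg_right
      · rw [hκ]
        apply mul_le_mul_of_nonneg_left _ (Nat.cast_nonneg _)
        have h3 : ((d : ℝ) + 1) ≤ n + 1 := by
          have : (d : ℝ) ≤ n := by exact_mod_cast hd
          linarith
        have h4 : (0 : ℝ) ≤ (d : ℝ) + 1 := by positivity
        calc ((d : ℝ) + 1) ^ (8 * (w0 + w) + 16) ≤ ((n : ℝ) + 1) ^ (8 * (w0 + w) + 16) :=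
              pow_le_pow_left₀ h4 h3 _
          _ ≤ ((n : ℝ) + 1) ^ (16 * (w + w0)) := pow_le_pow_right₀ hn1 (by omega)
      · have h3 := rpow_pos_of_pos (hXp i) t
        have h4 := rpow_pos_of_pos (hYp i) t
        positivity
  intro hg
  rcases Nat.eq_zero_or_pos n with hn0 | hn0
  · subst hn0
    left
    simp
  have hnr : (1 : ℝ) ≤ n := by exact_mod_cast hn0
  have hlT : 0 ≤ log ta := log_nonneg hta
  obtain ⟨Λ, hΛ⟩ : ∃ Λ : ℝ, Λ = log S + (w + w0) * log (2 * n) := ⟨_, rfl⟩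
  have hl2n : log 2 ≤ log (2 * n) := log_le_log (by norm_num) (by linarith)
  have hln : log (n + 1) ≤ log (2 * n) := log_le_log (by linarith) (by linarith)
  have hww : (2 : ℝ) ≤ w + w0 := by
    have h1 : (1 : ℝ) ≤ w := by exact_mod_cast hw
    have h2 : (1 : ℝ) ≤ w0 := by exact_mod_cast hw0
    linarith
  have hwl : 2 * log 2 ≤ (w + w0) * log (2 * n) :=
    mul_le_mul hww hl2n (by linarith) (by linarith)
  have hΛ1 : 1 ≤ Λ := by rw [hΛ]; linarith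
  have hlκΛ : log κ ≤ 17 * Λ := by
    rw [hlκ, hΛ]
    have h1 : (16 : ℝ) * ((w + w0) * log (n + 1)) ≤ 16 * ((w + w0) * log (2 * n)) :=
      mul_le_mul_of_nonneg_left (mul_le_mul_of_nonneg_left hln (by linarith)) (by norm_num)
    have h3 : 0 ≤ ((w : ℝ) + w0) * log (2 * n) := by linarith
    linarith
  have hσΛ : (σ : ℝ) ≤ 35 * Λ := by linarith
  have hkble := kb_le' hN1 hLg hp1 hσ0 hkb hsA
  have hσr : (1 : ℝ) ≤ σ := by exact_mod_cast hσ0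
  have h90 : 90 * (σ : ℝ) ≤ 3150 * Λ := by linarith
  rw [← hΛ, hpf]
  by_cases hq : 4 * ((kb + l : ℕ) : ℝ) ≤ q
  swap
  · right
    push Not at hq
    have h1 : ((kb + l : ℕ) : ℝ) ≤ 2 * kb := by
      have : (l : ℝ) ≤ kb := by exact_mod_cast hl1
      push_cast
      linarith
    have h2 : log (18 * (σ : ℝ)) ≤ 27 * (K : ℝ) ^ 3 * (90 * (σ : ℝ)) ^ (1 / (K : ℝ)) := by
      have e1 : 1 ≤ log (18 * (σ : ℝ)) := by
        have e2 : log (2 ^ 4) ≤ log (18 * (σ : ℝ)) := log_le_log (by norm_num) (by linarith)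
        rw [log_pow] at e2
        push_cast at e2
        linarith
      calc log (18 * (σ : ℝ)) ≤ log (18 * (σ : ℝ)) ^ 3 := by
            nlinarith [mul_self_nonneg (log (18 * (σ : ℝ)) - 1)]
        _ ≤ 27 * (K : ℝ) ^ 3 * (18 * (σ : ℝ)) ^ (1 / (K : ℝ)) := log_pow_three hK (by linarith)
        _ ≤ _ := by
            apply mul_le_mul_of_nonneg_left _ (by positivity)
            exact rpow_le_rpow (by positivity) (by linarith) (by positivity)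
    have hp0 : (1 : ℝ) ≤ p := by exact_mod_cast hp1
    have hK1 : 0 ≤ 1 / (K : ℝ) := by positivity
    have h3 : 8 * (kb : ℝ) ≤ D * (90 * (σ : ℝ)) ^ ((p : ℝ) + 1 / K) := by
      rw [rpow_add (show (0 : ℝ) < 90 * σ by linarith), rpow_natCast, hD]
      calc 8 * (kb : ℝ) ≤ 8 * (512 * K * (90 * (σ : ℝ)) ^ p * log (18 * σ)) := by linarith
        _ ≤ 8 * (512 * K * (90 * (σ : ℝ)) ^ p *
            (27 * (K : ℝ) ^ 3 * (90 * (σ : ℝ)) ^ (1 / (K : ℝ)))) := by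
            apply mul_le_mul_of_nonneg_left _ (by norm_num)
            exact mul_le_mul_of_nonneg_left h2 (by positivity)
        _ = _ := by ring
    have h4 : (90 * (σ : ℝ)) ^ ((p : ℝ) + 1 / K) ≤ (3150 * Λ) ^ ((p : ℝ) + 1 / K) :=
      rpow_le_rpow (by positivity) h90 (by positivity)
    have h5 : D ≤ D ^ ((p : ℝ) + 1 / K) := by
      calc D = D ^ (1 : ℝ) := (rpow_one _).symm
        _ ≤ _ := rpow_le_rpow_of_exponent_le hD1 (by linarith)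
    have h6 : q ≤ (C * Λ) ^ ((p : ℝ) + 1 / K) := by
      calc q ≤ 8 * kb := by linarith
        _ ≤ D * (90 * (σ : ℝ)) ^ ((p : ℝ) + 1 / K) := h3
        _ ≤ D ^ ((p : ℝ) + 1 / K) * (3150 * Λ) ^ ((p : ℝ) + 1 / K) :=
          mul_le_mul h5 h4 (by positivity) (by positivity)
        _ = ((D * 3150) * Λ) ^ ((p : ℝ) + 1 / K) := by
          rw [← mul_rpow (by linarith) (by linarith)]
          congr 1
          ring
        _ ≤ (C * Λ) ^ ((p : ℝ) + 1 / K) := rpow_le_rpow (by positivity)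
          (mul_le_mul_of_nonneg_right hCK (by linarith)) (by linarith)
    refine h6.trans (le_of_eq ?_)
    congr 1
    ring
  left
  -- the number of chunks
  obtain ⟨M, hM⟩ : ∃ M : ℕ, M = 2 * K * (kb + l) * 2 ^ u := ⟨_, rfl⟩
  have hM1 : 1 ≤ M := by
    rw [hM]
    exact Nat.mul_pos (Nat.mul_pos (by omega) (by omega)) (by positivity)
  have hMkb : kb + l ≤ M := by
    rw [hM]
    calc kb + l = 1 * (kb + l) * 1 := by ring
      _ ≤ 2 * K * (kb + l) * 2 ^ u :=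
        Nat.mul_le_mul (Nat.mul_le_mul_right _ (by omega)) Nat.one_le_two_pow
  obtain ⟨g, hgd⟩ : ∃ g : ℕ, g = n / M := ⟨_, rfl⟩
  have hgM : g * M ≤ n := by
    rw [hgd]
    exact Nat.div_mul_le_self n M
  have hgle : (g : ℝ) ≤ 2 * (log ta + 16 * log (2 * n)) := by
    rcases Nat.eq_zero_or_pos g with hg0 | hg0
    · rw [hg0, Nat.cast_zero]
      linarith
    · have hgn' := hgM
      rw [hM] at hgn'
      obtain ⟨g', r, E, hgg1, hgg2, hrE, hr, hE, hineq⟩ := hg hq g hg0 hgn'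
      rw [hHU] at hr
      rw [hHV] at hE
      have hineq' : (2 : ℝ) ^ (g' * kb) ≤ 2 ^ g * ((4 * (r + 1) * (E + 1)) ^ g' *
        (ta * (((g' * (kb + l) : ℕ) + 1 : ℝ) ^ 16 * (exp (t * (1 / 2 - 1 / (4 * N))) ^ (g' * r) *
          exp (t * ((B : ℝ) / A / 2 - 1 / (4 * N))) ^ (g' * E))))) := by
        have e1 : X (2 * k + 1) ^ t = exp (t * (1 / 2 - 1 / (4 * N))) := by
          rw [hXL, ← exp_mul, mul_comm]
        have e2 : Y (2 * k + 1) ^ t = exp (t * ((B : ℝ) / A / 2 - 1 / (4 * N))) := by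
          rw [hYL, ← exp_mul, mul_comm]
        rw [← e1, ← e2]
        exact hineq
      have h1 := g_le_xdf hN1 hB hBA ht hta hkb15 hl1 hl4 hgg2 (kb_large' hK hN1 hLg hkb) hrE hr hE
        hineq'
      have h2 : ((g' * (kb + l) : ℕ) + 1 : ℝ) ≤ 2 * n := by
        have h3 : g' * (kb + l) ≤ n := (Nat.mul_le_mul hgg1 hMkb).trans hgM
        have h4 : ((g' * (kb + l) : ℕ) : ℝ) ≤ n := by exact_mod_cast h3
        linarith
      have h3 : log ((g' * (kb + l) : ℕ) + 1 : ℝ) ≤ log (2 * n) := log_le_log (by positivity) h2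
      linarith
  have hnle : (n : ℝ) ≤ (g + 1) * M := by
    have h1 := Nat.div_add_mod n M
    have h2 := Nat.mod_lt n (show 0 < M by omega)
    rw [← hgd] at h1
    have h3 : n ≤ (g + 1) * M := by
      have : (g + 1) * M = M * g + M := by ring
      omega
    exact_mod_cast h3
  have hMle := chunk_le hK (by omega) hl1 hlu hl4
  rw [← hM] at hMle
  have hMle' := chunk_le' hK hσ0 (by positivity) hMle hkble
  rw [← hC1] at hMle'
  have he0 : (0 : ℝ) ≤ (1 + 2 / (K : ℝ)) * p + 1 / K := by positivity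
  have h90' : (90 * (σ : ℝ)) ^ ((1 + 2 / (K : ℝ)) * p + 1 / K) ≤
      (C * Λ) ^ ((1 + 2 / (K : ℝ)) * p + 1 / K) := by
    apply rpow_le_rpow (by positivity) _ he0
    exact h90.trans (mul_le_mul_of_nonneg_right hC3 (by linarith))
  have hlog : log (2 * n * ta) = log (2 * n) + log ta := log_mul (by positivity) (by linarith)
  have hpe : ((p : ℝ) + 2 - 2) = p := by ring
  rw [hlog, hpe]
  have h1 : (g : ℝ) + 1 ≤ 60 * (log (2 * n) + log ta) := by linarith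
  calc (n : ℝ) ≤ (g + 1) * M := hnle
    _ ≤ (60 * (log (2 * n) + log ta)) * (C1 * (C * Λ) ^ ((1 + 2 / (K : ℝ)) * p + 1 / K)) := by
      apply mul_le_mul h1 _ (Nat.cast_nonneg _)
      · exact mul_nonneg (by norm_num) (by linarith)
      · exact hMle'.trans (mul_le_mul_of_nonneg_left h90' hC10)
    _ = (60 * C1) * (log (2 * n) + log ta) * (C * Λ) ^ ((1 + 2 / (K : ℝ)) * p + 1 / K) := by
      ring
    _ ≤ _ := by
      apply mul_le_mul_of_nonneg_right _ (rpow_nonneg (by positivity) _)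
      exact mul_le_mul_of_nonneg_right hC60 (by linarith)

end Pool.XDT
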