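import Pool.Agent.XDT.Final
import Pool.Agent.XDF.Clean
import Pool.Agent.XDT.Num

/-!
# Tests for `k`-SAT of constant depth with two sided error, without multilinearity: the theorem
-/

set_option autoImplicit false

namespace Pool.XDT

open Finset Pool.SatDet Pool.XDA Pool.XD Pool.XDS Pool.CD Pool.CDep
  Pool.Agent.Helper41.CD Pool.Agent.Helper59.CDT

open Classical in
/-- **random tests of constant depth for `k`-SAT with two sided error** (`k = d + 1`); `l` is the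
level -/
theorem xdt (d : ℕ) (hd : 2 ≤ d) : ∃ C : ℝ, 1 ≤ C ∧
    ∀ (F : Type) [Field F] (Ω : Type) [Fintype Ω] (l n T S w w0 : ℕ) (a b q : ℝ) (pr : Ω → ℝ)
      (f : Ω → Fin T → Fin S → MvPolynomial (Clause n (d + 1)) F),
      1 ≤ n → 1 ≤ T → 2 ≤ S → 1 ≤ w → 1 ≤ w0 → 0 < a → a ≤ 1 → b * q ≤ a →
      (∀ ω, 0 ≤ pr ω) → ∑ ω, pr ω = 1 → (∀ ω i j, f ω i j ∈ Cls w0 w S l) →
      (∀ ω, (∀ μ ∈ (∑ i, ∏ j, f ω i j).support,
        q * ((univ.filter fun C => 2 ≤ μ C).card : ℝ) ≤ n.choose (d + 1)) ∨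
        q * (((∑ i, ∏ j, f ω i j).totalDegree : ℝ) - n.choose (d + 1)) ≤ n.choose (d + 1)) →
      (∀ U : Finset (Clause n (d + 1)), ¬ SatP n (d + 1) U →
        ∑ ω, (if rst U (∑ i, ∏ j, f ω i j) ≠ 0 then pr ω else 0) ≤ b) →
      (a * 2 ^ n ≤ ∑ x : Fin n → Bool,
        ∑ ω, if rst (viol x) (∑ i, ∏ j, f ω i j) ≠ 0 then pr ω else 0) →
      (n : ℝ) ≤ C * Real.log (2 * n * (T / a)) *
        (C * (Real.log S + (w + w0) * Real.log (2 * n))) ^
          ((1 + 2 / ((d + 1 : ℕ) : ℝ)) * ((Nat.fib (2 * l + 4) : ℝ) - 2) + 1 / ((d + 1 : ℕ) : ℝ)) ∨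
      q ≤ (C * (Real.log S + (w + w0) * Real.log (2 * n))) ^
        ((Nat.fib (2 * l + 4) : ℝ) - 2 + 1 / ((d + 1 : ℕ) : ℝ)) := by
  obtain ⟨C1, hC1, hfin⟩ := xdt_final (d + 1) (by omega)
  refine ⟨3 * C1, by linarith, ?_⟩
  intro F _ Ω _ k n T S w w0 a b q pr f hn hT hS hw hw0 ha ha1 hb hpr hpr1 hf hsq hno hyes
  have hTr : (1 : ℝ) ≤ T := by exact_mod_cast hT
  have hmr : (1 : ℝ) ≤ n := by exact_mod_cast hn
  have hTa : 1 ≤ (T : ℝ) / a := by
    rw [le_div_iff₀ ha]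
    linarith
  have hτ : 1 ≤ (T : ℝ) / (a / 2) := by
    rw [le_div_iff₀ (by positivity)]
    linarith
  have key : (n : ℝ) ≤ C1 * Real.log (2 * n * (T / (a / 2))) *
        (C1 * (Real.log S + (w + w0) * Real.log (2 * n))) ^
          ((1 + 2 / ((d + 1 : ℕ) : ℝ)) * ((Nat.fib (2 * k + 4) : ℝ) - 2) +
            1 / ((d + 1 : ℕ) : ℝ)) ∨
      q / 3 ≤ (C1 * (Real.log S + (w + w0) * Real.log (2 * n))) ^
        ((Nat.fib (2 * k + 4) : ℝ) - 2 + 1 / ((d + 1 : ℕ) : ℝ)) := by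
    obtain ⟨θ, kb, l, u, X, Y, h0, h1, hkb, hu, hlU, hlV, hX0, hY0, hX, hY, hnum, hlast⟩ :=
      hfin k n (T / (a / 2)) (q / 3) S w w0 hτ hS hw hw0
    refine hlast fun hq g hg hgn => ?_
    have h1' : 0 < 1 - θ := by linarith
    obtain ⟨HU, hHU⟩ : ∃ H : ℝ, H = 2 ^ (1 / θ) := ⟨_, rfl⟩
    obtain ⟨HV, hHV⟩ : ∃ H : ℝ, H = 2 ^ (1 / (1 - θ)) := ⟨_, rfl⟩
    have hHU1 : 1 < HU := by
      rw [hHU]
      exact Real.one_lt_rpow (by norm_num) (by positivity)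
    have hHV1 : 1 < HV := by
      rw [hHV]
      exact Real.one_lt_rpow (by norm_num) (by positivity)
    obtain ⟨τ, hbU, hbV, hcU, hcV⟩ := exists_types h0 h1
    rw [← hHU] at hbU hcU hlU hnum ⊢
    rw [← hHV] at hbV hcV hlV hnum ⊢
    obtain ⟨G⟩ := Pool.XDF.exists_gad (g := g) (k := kb) (l := l) (n := n) hd hg (by omega) hu hgn
    obtain ⟨g', r, E, hg1, hg2, hr, hE, hrE, hcard⟩ := sym_core hkb hHU1 hHV1 hbU hbV hlU hlV hg G
      pr hpr hpr1 f hf (by omega) hw hw0 ha hb (by linarith) hsq hno hyes hX hY hX0 hY0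
        (fun g' hg' => by
            apply hnum
            refine le_trans ?_ hgn
            refine Nat.mul_le_mul hg' ?_
            calc kb + l = 1 * (kb + l) * 1 := by ring
              _ ≤ 2 * (d + 1) * (kb + l) * 2 ^ u :=
                Nat.mul_le_mul (Nat.mul_le_mul_right _ (by omega)) Nat.one_le_two_pow)
    refine ⟨g', r, E, hg1, hg2, hrE, ?_, ?_, ?_⟩
    · rw [hr]
      exact hcU _
    · rw [hE]
      exact hcV _
    · have ha2 : 0 < a / 2 := by positivity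
      rw [← mul_le_mul_iff_right₀ ha2]
      refine hcard.trans (le_of_eq ?_)
      field_simp
  have hw1 : (1 : ℝ) ≤ w := by exact_mod_cast hw
  have hw01 : (1 : ℝ) ≤ w0 := by exact_mod_cast hw0
  have hl0 : 0 ≤ Real.log (2 * n) := Real.log_nonneg (by linarith)
  have hlS : 0 ≤ Real.log S := Real.log_natCast_nonneg S
  have hA : 0 ≤ Real.log S + (w + w0) * Real.log (2 * n) := by positivity
  have hC1' : C1 * (Real.log S + (w + w0) * Real.log (2 * n)) ≤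
      3 * C1 * (Real.log S + (w + w0) * Real.log (2 * n)) :=
    mul_le_mul_of_nonneg_right (by linarith) hA
  have hfib : 3 ≤ Nat.fib (2 * k + 4) := by
    have h1 : Nat.fib 4 ≤ Nat.fib (2 * k + 4) := Nat.fib_mono (by omega)
    exact h1
  have hfibr : (3 : ℝ) ≤ Nat.fib (2 * k + 4) := by exact_mod_cast hfib
  have hdr : (0 : ℝ) < ((d + 1 : ℕ) : ℝ) := by positivity
  rcases key with key | key
  swap
  · right
    have hd0 : 0 ≤ 1 / ((d + 1 : ℕ) : ℝ) := by positivity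
    have h3 : (3 : ℝ) ≤ 3 ^ ((Nat.fib (2 * k + 4) : ℝ) - 2 + 1 / ((d + 1 : ℕ) : ℝ)) := by
      calc (3 : ℝ) = 3 ^ (1 : ℝ) := (Real.rpow_one _).symm
        _ ≤ _ := Real.rpow_le_rpow_of_exponent_le (by norm_num) (by linarith)
    have h4 : 0 ≤ (C1 * (Real.log S + (w + w0) * Real.log (2 * n))) ^
        ((Nat.fib (2 * k + 4) : ℝ) - 2 + 1 / ((d + 1 : ℕ) : ℝ)) := Real.rpow_nonneg (by positivity) _
    calc q = 3 * (q / 3) := by ring
      _ ≤ 3 ^ ((Nat.fib (2 * k + 4) : ℝ) - 2 + 1 / ((d + 1 : ℕ) : ℝ)) *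
          (C1 * (Real.log S + (w + w0) * Real.log (2 * n))) ^
            ((Nat.fib (2 * k + 4) : ℝ) - 2 + 1 / ((d + 1 : ℕ) : ℝ)) := by
          calc 3 * (q / 3) ≤ 3 * (C1 * (Real.log S + (w + w0) * Real.log (2 * n))) ^
                ((Nat.fib (2 * k + 4) : ℝ) - 2 + 1 / ((d + 1 : ℕ) : ℝ)) := mul_le_mul_of_nonneg_left key (by norm_num)
            _ ≤ _ := mul_le_mul_of_nonneg_right h3 h4
      _ = (3 * C1 * (Real.log S + (w + w0) * Real.log (2 * n))) ^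
            ((Nat.fib (2 * k + 4) : ℝ) - 2 + 1 / ((d + 1 : ℕ) : ℝ)) := by
          rw [← Real.mul_rpow (by norm_num) (by positivity)]
          congr 1
          ring
  left
  have h2 : (2 : ℝ) ≤ 2 * n * (T / a) := by nlinarith
  have h3 : Real.log (2 * n * (T / (a / 2))) ≤ 2 * Real.log (2 * n * (T / a)) := by
    have e1 : 2 * (n : ℝ) * (T / (a / 2)) = 2 * (2 * n * (T / a)) := by
      field_simp
    rw [e1, Real.log_mul (by norm_num) (by positivity)]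
    have e2 : Real.log 2 ≤ Real.log (2 * n * (T / a)) := Real.log_le_log (by norm_num) h2
    linarith
  have h4 : 0 ≤ Real.log (2 * n * (T / (a / 2))) := by
    apply Real.log_nonneg
    nlinarith
  have h5 : 0 ≤ Real.log (2 * n * (T / a)) := Real.log_nonneg (by linarith)
  refine key.trans ?_
  have h6 : 0 ≤ (1 + 2 / ((d + 1 : ℕ) : ℝ)) * ((Nat.fib (2 * k + 4) : ℝ) - 2) +
      1 / ((d + 1 : ℕ) : ℝ) := by
    have : 0 ≤ (Nat.fib (2 * k + 4) : ℝ) - 2 := by linarith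
    positivity
  apply mul_le_mul
  · calc C1 * Real.log (2 * n * (T / (a / 2))) ≤ C1 * (3 * Real.log (2 * n * (T / a))) :=
          mul_le_mul_of_nonneg_left (by linarith) (by linarith)
      _ = 3 * C1 * Real.log (2 * n * (T / a)) := by ring
  · exact Real.rpow_le_rpow (by positivity) hC1' h6
  · positivity
  · positivity

open Classical in
/-- the clauses which are true at `x` -/
noncomputable def tru {n k : ℕ} (x : Fin n → Bool) : Finset (Clause n k) :=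
  univ.filter fun C => Sats x C

theorem mem_tru {n k : ℕ} {x : Fin n → Bool} {C : Clause n k} : C ∈ tru x ↔ Sats x C := by
  classical
  rw [tru, mem_filter]
  simp only [mem_univ, true_and]

theorem rst_viol {n k : ℕ} {F : Type} [Field F] (x : Fin n → Bool)
    (f : MvPolynomial (Clause n k) F) : rst (viol x) f = onF (tru x) f := by
  classical
  rw [Pool.XDE.rst_eq_onF]
  congr 1
  ext C
  rw [mem_compl, mem_viol, tru, mem_filter]
  simp only [mem_univ, true_and, not_not]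

open Classical in
/-- the theorem for polynomials `f ω` which are sums of products -/
theorem xdt_clean (d : ℕ) (hd : 2 ≤ d) : ∃ C : ℝ, 1 ≤ C ∧
    ∀ (F : Type) [Field F] (Ω : Type) [Fintype Ω] (l n S w w0 T : ℕ) (a b q : ℝ) (pr : Ω → ℝ)
      (f : Ω → MvPolynomial (Clause n (d + 1)) F),
      1 ≤ n → 2 ≤ S → 1 ≤ w → 1 ≤ w0 → 1 ≤ T → 0 < a → a ≤ 1 → b * q ≤ a →
      (∀ ω, 0 ≤ pr ω) → ∑ ω, pr ω = 1 →
      (∀ ω, ∃ h : Fin T → Fin S → MvPolynomial (Clause n (d + 1)) F,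
        (∀ i j, h i j ∈ Pool.Agent.Helper41.CD.Cls w0 w S l) ∧ f ω = ∑ i, ∏ j, h i j) →
      (∀ ω, (∀ μ ∈ (f ω).support,
        q * ((univ.filter fun C => 2 ≤ μ C).card : ℝ) ≤ n.choose (d + 1)) ∨
        q * (((f ω).totalDegree : ℝ) - n.choose (d + 1)) ≤ n.choose (d + 1)) →
      (∀ φ : Finset (Clause n (d + 1)), (¬ ∃ a : Fin n → Bool, ∀ c ∈ φ, Sats a c) →
        ∑ ω, (if onF φ (f ω) ≠ 0 then pr ω else 0) ≤ b) →
      (a * 2 ^ n ≤ ∑ x : Fin n → Bool, ∑ ω, if onF (tru x) (f ω) ≠ 0 then pr ω else 0) →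
      (n : ℝ) ≤ C * Real.log (2 * n * T / a) *
        (C * (Real.log S + (w + w0) * Real.log (2 * n))) ^
          ((1 + 2 / ((d + 1 : ℕ) : ℝ)) * ((Nat.fib (2 * l + 4) : ℝ) - 2) + 1 / ((d + 1 : ℕ) : ℝ)) ∨
      q ≤ (C * (Real.log S + (w + w0) * Real.log (2 * n))) ^
        ((Nat.fib (2 * l + 4) : ℝ) - 2 + 1 / ((d + 1 : ℕ) : ℝ)) := by
  obtain ⟨C, hC, H⟩ := xdt d hd
  refine ⟨C, hC, ?_⟩
  intro F _ Ω _ l n S w w₀ T a b q p f hn hS hw hw0 hT ha ha1 hb hp hp1 hf hsq hno hyes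
  have hunsat : ∀ U : Finset (Clause n (d + 1)), ¬ SatP n (d + 1) U →
      ¬ ∃ a : Fin n → Bool, ∀ c ∈ Uᶜ, Sats a c := by
    rintro U hU ⟨a, ha⟩
    apply hU
    refine ⟨a, fun c hc => ?_⟩
    by_contra h
    exact hc (ha c (Finset.mem_compl.2 h))
  choose h hh hfh using hf
  have key := H F Ω l n T S w w₀ a b q p h hn hT hS hw hw0 ha ha1 hb hp hp1 hh ?_ ?_ ?_
  · rw [mul_div_assoc]
    exact key
  · intro ω
    rw [← hfh ω]
    exact hsq ω
  · intro U hU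
    refine le_trans (le_of_eq (Finset.sum_congr rfl fun ω _ => ?_)) (hno Uᶜ (hunsat U hU))
    rw [← hfh ω, Pool.XDE.rst_eq_onF]
  · refine hyes.trans (le_of_eq (Finset.sum_congr rfl fun x _ => Finset.sum_congr rfl fun ω _ => ?_))
    rw [← hfh ω, rst_viol]

open Classical in
/-- **circuits of constant depth with arbitrary gates of fan-in `w`, two sided error** -/
theorem xdt_circ (d : ℕ) (hd : 2 ≤ d) : ∃ c : ℝ, 0 < c ∧
    ∀ (F : Type) [Field F] (Ω : Type) [Fintype Ω] (l n s w : ℕ) (a b q : ℝ) (pr : Ω → ℝ)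
      (f : Ω → MvPolynomial (Clause n (d + 1)) F),
      1 ≤ n → 1 ≤ s → 1 ≤ w → 0 < a → a ≤ 1 → 0 ≤ q → b * q ≤ a → (∀ ω, 0 ≤ pr ω) →
      ∑ ω, pr ω = 1 →
      (∀ ω, ∃ P : Fin s → MvPolynomial (Clause n (d + 1)) F,
        Pool.QPIT.IsCircuitW (l + 1) w P ∧ ∃ g, P g = f ω) →
      (∀ ω, (∀ μ ∈ (f ω).support,
        q * ((univ.filter fun C => 2 ≤ μ C).card : ℝ) ≤ n.choose (d + 1)) ∨
        q * (((f ω).totalDegree : ℝ) - n.choose (d + 1)) ≤ n.choose (d + 1)) →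
      (∀ φ : Finset (Clause n (d + 1)), (¬ ∃ a : Fin n → Bool, ∀ c ∈ φ, Sats a c) →
        ∑ ω, (if onF φ (f ω) ≠ 0 then pr ω else 0) ≤ b) →
      (a * 2 ^ n ≤ ∑ x : Fin n → Bool, ∑ ω, if onF (tru x) (f ω) ≠ 0 then pr ω else 0) →
      a * Real.exp (c * min
        ((n : ℝ) ^ (((d + 1 : ℕ) : ℝ) /
          ((((d + 1 : ℕ) : ℝ) + 2) * (Nat.fib (2 * (l + 1) + 2) : ℝ) - ((d + 1 : ℕ) : ℝ) - 3)))
        (q ^ (((d + 1 : ℕ) : ℝ) / (((d + 1 : ℕ) : ℝ) * (Nat.fib (2 * (l + 1) + 2) : ℝ) -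
          2 * ((d + 1 : ℕ) : ℝ) + 1)))) ≤
        (2 * n : ℝ) ^ w * (s + n) := by
  obtain ⟨C, hC, H⟩ := xdt_clean d hd
  refine ⟨1 / (((d + 1 : ℕ) + 2) * C), by positivity, ?_⟩
  intro F _ Ω _ l n s w a b q pr f hn hs hw ha ha1 hq hb hpr hpr1 hf hml hno hyes
  have h3 : 3 ≤ Nat.fib (2 * l + 4) := by
    have : Nat.fib 4 ≤ Nat.fib (2 * l + 4) := Nat.fib_mono (by omega)
    exact this
  have h3r : (3 : ℝ) ≤ Nat.fib (2 * l + 4) := by exact_mod_cast h3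
  obtain ⟨K, hK⟩ : ∃ K : ℝ, K = ((d + 1 : ℕ) : ℝ) := ⟨_, rfl⟩
  have hK0 : 0 < K := by rw [hK]; positivity
  have he0 : 0 ≤ (1 + 2 / K) * ((Nat.fib (2 * l + 4) : ℝ) - 2) + 1 / K := by
    have : 0 ≤ (Nat.fib (2 * l + 4) : ℝ) - 2 := by linarith
    positivity
  have e1 : K / ((K + 2) * (Nat.fib (2 * (l + 1) + 2) : ℝ) - K - 3) =
      1 / ((1 + 2 / K) * ((Nat.fib (2 * l + 4) : ℝ) - 2) + 1 / K + 1) := by
    rw [show 2 * (l + 1) + 2 = 2 * l + 4 by ring]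
    have h4 : (1 + 2 / K) * ((Nat.fib (2 * l + 4) : ℝ) - 2) + 1 / K + 1 =
        ((K + 2) * (Nat.fib (2 * l + 4) : ℝ) - K - 3) / K := by
      field_simp
      ring
    rw [h4, one_div_div]
  have e2 : K / (K * (Nat.fib (2 * (l + 1) + 2) : ℝ) - 2 * K + 1) =
      1 / ((Nat.fib (2 * l + 4) : ℝ) - 2 + 1 / K) := by
    rw [show 2 * (l + 1) + 2 = 2 * l + 4 by ring]
    have h4 : (Nat.fib (2 * l + 4) : ℝ) - 2 + 1 / K =
        (K * (Nat.fib (2 * l + 4) : ℝ) - 2 * K + 1) / K := by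
      field_simp
    rw [h4, one_div_div]
  have hp0 : 0 < (Nat.fib (2 * l + 4) : ℝ) - 2 + 1 / K := by
    have : 0 < 1 / K := by positivity
    linarith
  have hN := card_clause_le n (d + 1)
  have h1 := H F Ω l n (s + Fintype.card (Clause n (d + 1)) + 1) w w (s + 1) a b q pr f hn
    (by omega) hw hw (by omega) ha ha1 hb hpr hpr1 (fun ω => ?_) hml hno hyes
  · have h2 := Pool.XDF.circ_num_min hC
      (e := (1 + 2 / K) * ((Nat.fib (2 * l + 4) : ℝ) - 2) + 1 / K)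
      (p := (Nat.fib (2 * l + 4) : ℝ) - 2 + 1 / K) he0 hp0 (d + 1) n s w _ a q (by omega)
      hn hs hw hN ha ha1 hq (by rw [hK]; exact h1)
    rw [← hK, e1, e2]
    rw [hK] at h2 ⊢
    exact h2
  · obtain ⟨P, hP, g, hg⟩ := hf ω
    obtain ⟨h, hh, hhg⟩ := Pool.QPIT.circuit_sumW hw le_rfl hP g
    exact ⟨h, hh, by rw [hhg, hg]⟩

end Pool.XDT
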